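import Mathlib

/-!
# A lower bound `n / 3` for the codegree Turán number of tight cycles when `gcd k ℓ ≤ 3`

For `k ≥ 3` and `ℓ > k` with `k ∤ ℓ`, `k / gcd k ℓ` odd and `gcd k ℓ ≤ 3` there is, for each `n`,
a `k`-graph on `n` vertices with minimum codegree at least `n / 3 - k` and without a copy of the
tight cycle on `ℓ` vertices.
-/

set_option autoImplicit false

namespace Pool.Agent.Results.MP_a572be_co.GcdAtMostThree

/-- `G` contains the `k`-uniform tight cycle on `ℓ` vertices: there are distinct vertices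
`u 0, …, u (ℓ - 1)`, indexed by the integers modulo `ℓ`, such that any `k` cyclically
consecutive ones form an edge. -/
def HasTightCycle (k ℓ : ℕ) {n : ℕ} (G : Finset (Finset (Fin n))) : Prop :=
  ∃ u : ZMod ℓ → Fin n, Function.Injective u ∧
    ∀ i : ZMod ℓ, ((Finset.range k).image fun j : ℕ => u (i + (j : ZMod ℓ))) ∈ G

/-- A set of lattice points of the triangle `a + b + c = k` which meets each small up-triangle,
with a direction for each point, such that adjacent points have the direction of their line, and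
the coordinate of a point in its direction is not divisible by `d`. -/
structure Design (k d : ℕ) where
  T : ℕ → ℕ → ℕ → Prop
  lam : ℕ → ℕ → ℕ → ℕ
  cov : ∀ a b c, a + b + c + 1 = k → T (a + 1) b c ∨ T a (b + 1) c ∨ T a b (c + 1)
  c01 : ∀ a b c, a + b + c + 1 = k → T (a + 1) b c → T a (b + 1) c →
    lam (a + 1) b c = 2 ∧ lam a (b + 1) c = 2
  c02 : ∀ a b c, a + b + c + 1 = k → T (a + 1) b c → T a b (c + 1) →
    lam (a + 1) b c = 1 ∧ lam a b (c + 1) = 1
  c12 : ∀ a b c, a + b + c + 1 = k → T a (b + 1) c → T a b (c + 1) →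
    lam a (b + 1) c = 0 ∧ lam a b (c + 1) = 0
  nd0 : ∀ a b c, a + b + c = k → T a b c → lam a b c = 0 → ¬ d ∣ a
  nd1 : ∀ a b c, a + b + c = k → T a b c → lam a b c = 1 → ¬ d ∣ b
  nd2 : ∀ a b c, a + b + c = k → T a b c → lam a b c = 2 → ¬ d ∣ c
  le2 : ∀ a b c, a + b + c = k → T a b c → lam a b c ≤ 2

theorem not_dvd_of {d x : ℕ} (h0 : x ≠ 0) (h1 : x ≠ d) (h2 : x ≠ 2 * d) (h3 : x ≠ 3 * d)
    (h4 : x ≤ 3 * d) : ¬ d ∣ x := by
  rintro ⟨m, rfl⟩
  have hm : m ≤ 3 := by
    by_contra hm
    push Not at hm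
    have hd : 0 < d := by
      rcases Nat.eq_zero_or_pos d with h | h
      · subst h; simp at h0
      · exact h
    nlinarith
  interval_cases m
  · simp at h0
  · simp at h1
  · exact h2 (by ring)
  · exact h3 (by ring)

/-- A generic direction. -/
def gen (d a b : ℕ) : ℕ :=
  if a ≠ 0 ∧ a ≠ d ∧ a ≠ 2 * d ∧ a ≠ 3 * d then 0
  else if b ≠ 0 ∧ b ≠ d ∧ b ≠ 2 * d ∧ b ≠ 3 * d then 1 else 2

theorem nd_gen {d a : ℕ} (h : a ≠ 0 ∧ a ≠ d ∧ a ≠ 2 * d ∧ a ≠ 3 * d) (h4 : a ≤ 3 * d) :
    ¬ d ∣ a := not_dvd_of h.1 h.2.1 h.2.2.1 h.2.2.2 h4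

theorem of_not_gen {d a : ℕ} (h : ¬ (a ≠ 0 ∧ a ≠ d ∧ a ≠ 2 * d ∧ a ≠ 3 * d)) :
    a = 0 ∨ a = d ∨ a = 2 * d ∨ a = 3 * d := by omega

/-- The case where `3` divides `d`. -/
def designZero (k d : ℕ) (h3 : 3 ∣ d) : Design k d where
  T := fun _ b c => (b + 2 * c) % 3 = 1
  lam := fun a b _ => if ¬ d ∣ a then 0 else if ¬ d ∣ b then 1 else 2
  cov := by
    intro a b c _
    have hr : (b + 2 * c) % 3 = 0 ∨ (b + 2 * c) % 3 = 1 ∨ (b + 2 * c) % 3 = 2 := by omega
    rcases hr with hr | hr | hr <;> omega
  c01 := by intro a b c _ h1 h2; exfalso; omega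
  c02 := by intro a b c _ h1 h2; exfalso; omega
  c12 := by intro a b c _ h1 h2; exfalso; omega
  nd0 := by
    intro a b c _ _ h
    by_contra hc
    simp only [hc, not_true_eq_false, if_false] at h
    split_ifs at h
  nd1 := by
    intro a b c _ _ h
    by_contra hc
    simp only [hc, not_true_eq_false, if_false] at h
    split_ifs at h
    exact absurd h (by norm_num)
  nd2 := by
    intro a b c _ hT h hc
    by_cases h1 : d ∣ a
    · by_cases h2 : d ∣ b
      · have hb : 3 ∣ b := h3.trans h2
        have hc' : 3 ∣ c := h3.trans hc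
        omega
      · simp [h1, h2] at h
    · simp [h1] at h
  le2 := by
    intro a b c _ _
    split_ifs <;> omega

/-- The case `k = d`. -/
def designOne (d : ℕ) (hd : 4 ≤ d) (h3 : ¬ 3 ∣ d) : Design d d where
  T := fun _ b c => ((b + 2 * c) % 3 = 0 ∧ 0 < b + c) ∨ (b = 1 ∧ c = 0)
  lam := fun a b c => if b = 1 ∧ c ≤ 1 then 1 else gen d a b
  cov := by
    intro a b c h
    have hr : (b + 2 * c) % 3 = 0 ∨ (b + 2 * c) % 3 = 1 ∨ (b + 2 * c) % 3 = 2 := by omega
    rcases hr with hr | hr | hr <;> omega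
  c01 := by intro a b c h h1 h2; exfalso; omega
  c02 := by
    intro a b c h h1 h2
    have : b = 1 ∧ c = 0 := by omega
    obtain ⟨rfl, rfl⟩ := this
    simp
  c12 := by intro a b c h h1 h2; exfalso; omega
  nd0 := by
    intro a b c h hT hl
    simp only [gen] at hl
    split_ifs at hl <;> first
      | exact absurd hl (by decide)
      | exact not_dvd_of (by omega) (by omega) (by omega) (by omega) (by omega)
  nd1 := by
    intro a b c h hT hl
    simp only [gen] at hl
    split_ifs at hl <;> first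
      | exact absurd hl (by decide)
      | exact not_dvd_of (by omega) (by omega) (by omega) (by omega) (by omega)
  nd2 := by
    intro a b c h hT hl
    simp only [gen] at hl
    split_ifs at hl <;> first
      | exact absurd hl (by decide)
      | exact not_dvd_of (by omega) (by omega) (by omega) (by omega) (by omega)
  le2 := by
    intro a b c h hT
    simp only [gen]
    split_ifs <;> omega

/-- The case `k = 2 * d`. -/
def designTwo (d : ℕ) (hd : 4 ≤ d) (h3 : ¬ 3 ∣ d) : Design (2 * d) d where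
  T := fun _ b c => ((b + 2 * c) % 3 = 0 ∧ 0 < b + c ∧ ¬ (b = d ∧ c = d)) ∨ (b = 1 ∧ c = 0) ∨
    (b + 1 = d ∧ c = d + 1) ∨ (b = d + 1 ∧ c + 1 = d)
  lam := fun a b c => if b = 1 ∧ c ≤ 1 then 1
    else if c = d + 1 ∧ (b + 1 = d ∨ b + 2 = d) then 2
    else if b = d + 1 ∧ (c + 1 = d ∨ c + 2 = d) then 1 else gen d a b
  cov := by
    intro a b c h
    have hr : (b + 2 * c) % 3 = 0 ∨ (b + 2 * (c + 1)) % 3 = 0 ∨ (b + 1 + 2 * c) % 3 = 0 := by
      have hr : (b + 2 * c) % 3 = 0 ∨ (b + 2 * c) % 3 = 1 ∨ (b + 2 * c) % 3 = 2 := by omega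
      rcases hr with hr | hr | hr <;> omega
    rcases hr with hr | hr | hr
    · by_cases e : b + c = 0
      · right; left; right; left; omega
      · left; left; exact ⟨hr, by omega, by omega⟩
    · by_cases e : b = d ∧ c + 1 = d
      · right; left; right; right; right; omega
      · right; right; left; exact ⟨hr, by omega, e⟩
    · by_cases e : b + 1 = d ∧ c = d
      · right; right; right; right; left; omega
      · right; left; left; exact ⟨hr, by omega, e⟩
  c01 := by
    intro a b c h h1 h2
    have key : b + 2 = d ∧ c = d + 1 := by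
      rcases h1 with ⟨r1, s1, n1⟩ | h1 | h1 | h1 <;>
        rcases h2 with ⟨r2, s2, n2⟩ | h2 | h2 | h2 <;> omega
    clear h1 h2
    constructor
    · rw [if_neg (by omega), if_pos (by omega)]
    · rw [if_neg (by omega), if_pos (by omega)]
  c02 := by
    intro a b c h h1 h2
    have key : (b = 1 ∧ c = 0) ∨ (b = d + 1 ∧ c + 2 = d) := by
      rcases h1 with ⟨r1, s1, n1⟩ | h1 | h1 | h1 <;>
        rcases h2 with ⟨r2, s2, n2⟩ | h2 | h2 | h2 <;> omega
    clear h1 h2
    rcases key with key | key
    · constructor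
      · rw [if_pos (by omega)]
      · rw [if_pos (by omega)]
    · constructor
      · rw [if_neg (by omega), if_neg (by omega), if_pos (by omega)]
      · rw [if_neg (by omega), if_neg (by omega), if_pos (by omega)]
  c12 := by
    intro a b c h h1 h2
    exfalso
    rcases h1 with ⟨r1, s1, n1⟩ | h1 | h1 | h1 <;>
      rcases h2 with ⟨r2, s2, n2⟩ | h2 | h2 | h2 <;> omega
  nd0 := by
    intro a b c h hT hl
    simp only [gen] at hl
    split_ifs at hl with q1 q2 q3 q4 q5 <;> first
      | exact absurd hl (by decide)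
      | exact nd_gen q4 (by clear hT; omega)
      | (clear hT; exact not_dvd_of (by omega) (by omega) (by omega) (by omega) (by omega))
  nd1 := by
    intro a b c h hT hl
    simp only [gen] at hl
    split_ifs at hl with q1 q2 q3 q4 q5 <;> first
      | exact absurd hl (by decide)
      | exact nd_gen q5 (by clear hT; omega)
      | (clear hT; exact not_dvd_of (by omega) (by omega) (by omega) (by omega) (by omega))
  nd2 := by
    intro a b c h hT hl
    simp only [gen] at hl
    split_ifs at hl with q1 q2 q3 q4 q5 <;> first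
      | exact absurd hl (by decide)
      | (exfalso
         have ea := of_not_gen q4
         have eb := of_not_gen q5
         clear q1 q2 q3 q4 q5
         rcases ea with ea | ea | ea | ea <;> rcases eb with eb | eb | eb | eb <;>
           rcases hT with hT | hT | hT | hT <;> omega)
      | (clear hT; exact not_dvd_of (by omega) (by omega) (by omega) (by omega) (by omega))
  le2 := by
    intro a b c h hT
    clear h hT
    simp only [gen]
    split_ifs <;> decide

/-- The case `k = 3 * d`. -/
def designThree (d : ℕ) (hd : 4 ≤ d) (h3 : ¬ 3 ∣ d) : Design (3 * d) d where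
  T := fun _ b c => ((b + 2 * c) % 3 = d % 3 ∧ ¬ (b = d ∧ c = 0) ∧ ¬ (b = 0 ∧ c = 2 * d) ∧
      ¬ (b = 2 * d ∧ c = d)) ∨ (b = d + 1 ∧ c = 0) ∨ (b + 1 = d ∧ c = 0) ∨
    (b = 0 ∧ c = 2 * d + 1) ∨ (b = 0 ∧ c + 1 = 2 * d) ∨ (b + 1 = 2 * d ∧ c = d + 1) ∨
    (b = 2 * d + 1 ∧ c + 1 = d)
  lam := fun a b c => if b = d + 1 ∧ c ≤ 1 then 1
    else if (b + 1 = d ∧ c = 0) ∨ (b + 2 = d ∧ c = 1) then 0
    else if b ≤ 1 ∧ c = 2 * d + 1 then 2
    else if (b = 0 ∧ c + 1 = 2 * d) ∨ (b = 1 ∧ c + 2 = 2 * d) then 0
    else if (b + 1 = 2 * d ∨ b + 2 = 2 * d) ∧ c = d + 1 then 2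
    else if b = 2 * d + 1 ∧ (c + 1 = d ∨ c + 2 = d) then 1 else gen d a b
  cov := by
    intro a b c h
    have hr : (b + 2 * c) % 3 = d % 3 ∨ (b + 1 + 2 * c) % 3 = d % 3 ∨
        (b + 2 * (c + 1)) % 3 = d % 3 := by
      have hd3 : d % 3 = 1 ∨ d % 3 = 2 := by omega
      have hr : (b + 2 * c) % 3 = 0 ∨ (b + 2 * c) % 3 = 1 ∨ (b + 2 * c) % 3 = 2 := by omega
      rcases hd3 with hd3 | hd3 <;> rcases hr with hr | hr | hr <;> omega
    rcases hr with hr | hr | hr
    · by_cases e1 : b = d ∧ c = 0
      · right; left; right; left; omega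
      · by_cases e2 : b = 0 ∧ c = 2 * d
        · right; right; right; right; right; left; omega
        · left; left; exact ⟨hr, e1, e2, by omega⟩
    · by_cases e1 : b + 1 = d ∧ c = 0
      · left; right; right; left; omega
      · by_cases e2 : b + 1 = 2 * d ∧ c = d
        · right; right; right; right; right; right; right; left; omega
        · right; left; left; exact ⟨hr, e1, by omega, e2⟩
    · by_cases e1 : b = 0 ∧ c + 1 = 2 * d
      · left; right; right; right; right; left; omega
      · by_cases e2 : b = 2 * d ∧ c + 1 = d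
        · right; left; right; right; right; right; right; right; omega
        · right; right; left; exact ⟨hr, by omega, e1, e2⟩
  c01 := by
    intro a b c h h1 h2
    have key : (b = 0 ∧ c = 2 * d + 1) ∨ (b + 2 = 2 * d ∧ c = d + 1) := by
      rcases h1 with ⟨r1, n1, n2, n3⟩ | h1 | h1 | h1 | h1 | h1 | h1 <;>
        rcases h2 with ⟨r2, m1, m2, m3⟩ | h2 | h2 | h2 | h2 | h2 | h2 <;> omega
    clear h1 h2
    rcases key with key | key
    · constructor
      · rw [if_neg (by omega), if_neg (by omega), if_pos (by omega)]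
      · rw [if_neg (by omega), if_neg (by omega), if_pos (by omega)]
    · constructor
      · rw [if_neg (by omega), if_neg (by omega), if_neg (by omega), if_neg (by omega), if_pos (by omega)]
      · rw [if_neg (by omega), if_neg (by omega), if_neg (by omega), if_neg (by omega), if_pos (by omega)]
  c02 := by
    intro a b c h h1 h2
    have key : (b = d + 1 ∧ c = 0) ∨ (b = 2 * d + 1 ∧ c + 2 = d) := by
      rcases h1 with ⟨r1, n1, n2, n3⟩ | h1 | h1 | h1 | h1 | h1 | h1 <;>
        rcases h2 with ⟨r2, m1, m2, m3⟩ | h2 | h2 | h2 | h2 | h2 | h2 <;> omega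
    clear h1 h2
    rcases key with key | key
    · constructor
      · rw [if_pos (by omega)]
      · rw [if_pos (by omega)]
    · constructor
      · rw [if_neg (by omega), if_neg (by omega), if_neg (by omega), if_neg (by omega), if_neg (by omega), if_pos (by omega)]
      · rw [if_neg (by omega), if_neg (by omega), if_neg (by omega), if_neg (by omega), if_neg (by omega), if_pos (by omega)]
  c12 := by
    intro a b c h h1 h2
    have key : (b + 2 = d ∧ c = 0) ∨ (b = 0 ∧ c + 2 = 2 * d) := by
      rcases h1 with ⟨r1, n1, n2, n3⟩ | h1 | h1 | h1 | h1 | h1 | h1 <;>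
        rcases h2 with ⟨r2, m1, m2, m3⟩ | h2 | h2 | h2 | h2 | h2 | h2 <;> omega
    clear h1 h2
    rcases key with key | key
    · constructor
      · rw [if_neg (by omega), if_pos (by omega)]
      · rw [if_neg (by omega), if_pos (by omega)]
    · constructor
      · rw [if_neg (by omega), if_neg (by omega), if_neg (by omega), if_pos (by omega)]
      · rw [if_neg (by omega), if_neg (by omega), if_neg (by omega), if_pos (by omega)]
  nd0 := by
    intro a b c h hT hl
    simp only [gen] at hl
    split_ifs at hl with q1 q2 q3 q4 q5 q6 q7 q8 <;> first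
      | exact absurd hl (by decide)
      | exact nd_gen q7 (by clear hT; omega)
      | (clear hT; exact not_dvd_of (by omega) (by omega) (by omega) (by omega) (by omega))
  nd1 := by
    intro a b c h hT hl
    simp only [gen] at hl
    split_ifs at hl with q1 q2 q3 q4 q5 q6 q7 q8 <;> first
      | exact absurd hl (by decide)
      | exact nd_gen q8 (by clear hT; omega)
      | (clear hT; exact not_dvd_of (by omega) (by omega) (by omega) (by omega) (by omega))
  nd2 := by
    intro a b c h hT hl
    simp only [gen] at hl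
    split_ifs at hl with q1 q2 q3 q4 q5 q6 q7 q8 <;> first
      | exact absurd hl (by decide)
      | (exfalso
         have ea := of_not_gen q7
         have eb := of_not_gen q8
         clear q1 q2 q3 q4 q5 q6 q7 q8
         rcases ea with ea | ea | ea | ea <;> rcases eb with eb | eb | eb | eb <;>
           rcases hT with hT | hT | hT | hT | hT | hT | hT <;> omega)
      | (clear hT; exact not_dvd_of (by omega) (by omega) (by omega) (by omega) (by omega))
  le2 := by
    intro a b c h hT
    clear h hT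
    simp only [gen]
    split_ifs <;> decide

/-- The number of letters `a` in the window of length `k` of the word `c` that begins at `i`. -/
def win (k : ℕ) (c : ℕ → ℕ) (a i : ℕ) : ℕ :=
  ∑ j ∈ Finset.range k, if c (i + j) = a then 1 else 0

theorem win_succ (k : ℕ) (c : ℕ → ℕ) (a i : ℕ) :
    win k c a (i + 1) + (if c i = a then 1 else 0) =
      win k c a i + (if c (i + k) = a then 1 else 0) := by
  unfold win
  have h1 := Finset.sum_range_succ (fun j => if c (i + j) = a then (1 : ℕ) else 0) k
  have h2 := Finset.sum_range_succ' (fun j => if c (i + j) = a then (1 : ℕ) else 0) k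
  simp only [Nat.add_zero] at h2
  have h3 : ∑ j ∈ Finset.range k, (if c (i + (j + 1)) = a then (1 : ℕ) else 0) =
      ∑ j ∈ Finset.range k, (if c (i + 1 + j) = a then (1 : ℕ) else 0) := by
    refine Finset.sum_congr rfl fun j _ => ?_
    rw [show i + (j + 1) = i + 1 + j by ring]
  omega

theorem win_sum (k : ℕ) (c : ℕ → ℕ) (hc : ∀ m, c m < 3) (i : ℕ) :
    win k c 0 i + win k c 1 i + win k c 2 i = k := by
  unfold win
  rw [← Finset.sum_add_distrib, ← Finset.sum_add_distrib]
  have h : ∀ j ∈ Finset.range k, ((if c (i + j) = 0 then (1 : ℕ) else 0) +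
      (if c (i + j) = 1 then 1 else 0) + (if c (i + j) = 2 then 1 else 0)) = 1 := by
    intro j _
    have := hc (i + j)
    split_ifs <;> omega
  rw [Finset.sum_congr rfl h]
  simp

theorem sum_periodic (f : ℕ → ℕ) (g : ℕ) (hf : ∀ i, f (i + g) = f i) (d : ℕ) :
    ∑ j ∈ Finset.range (g * d), f j = d * ∑ j ∈ Finset.range g, f j := by
  have hf' : ∀ d i, f (g * d + i) = f i := by
    intro d
    induction d with
    | zero => intro i; simp
    | succ d ih =>
      intro i
      rw [show g * (d + 1) + i = (g * d + i) + g by ring, hf, ih]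
  induction d with
  | zero => simp
  | succ d ih =>
    rw [Nat.mul_succ, Finset.sum_range_add, ih]
    rw [Finset.sum_congr rfl fun j _ => hf' d j]
    ring

theorem no_word {k d g ℓ : ℕ} (D : Design k d) (hkg : k = g * d) (hg : Nat.gcd k ℓ = g)
    (hgl : g < ℓ) (c : ℕ → ℕ) (hc : ∀ m, c m < 3) (hper : ∀ m, c (m + ℓ) = c m)
    (hT : ∀ i, D.T (win k c 0 i) (win k c 1 i) (win k c 2 i)) : False := by
  have step : ∀ i, D.lam (win k c 0 (i + 1)) (win k c 1 (i + 1)) (win k c 2 (i + 1)) =
      D.lam (win k c 0 i) (win k c 1 i) (win k c 2 i) ∧ (c i ≠ c (i + k) →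
        c i ≠ D.lam (win k c 0 i) (win k c 1 i) (win k c 2 i) ∧
        c (i + k) ≠ D.lam (win k c 0 i) (win k c 1 i) (win k c 2 i)) := by
    intro i
    have w0 := win_succ k c 0 i
    have w1 := win_succ k c 1 i
    have w2 := win_succ k c 2 i
    have hs := win_sum k c hc i
    have hs' := win_sum k c hc (i + 1)
    have h1 := hT i
    have h2 := hT (i + 1)
    have hi := hc i
    have hk := hc (i + k)
    generalize win k c 0 i = x0 at *
    generalize win k c 1 i = x1 at *
    generalize win k c 2 i = x2 at *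
    generalize win k c 0 (i + 1) = y0 at *
    generalize win k c 1 (i + 1) = y1 at *
    generalize win k c 2 (i + 1) = y2 at *
    generalize c i = p at *
    generalize c (i + k) = q at *
    by_cases hpq : p = q
    · subst hpq
      have e0 : y0 = x0 := by omega
      have e1 : y1 = x1 := by omega
      have e2 : y2 = x2 := by omega
      subst e0 e1 e2
      exact ⟨rfl, fun h => absurd rfl h⟩
    · have hcases : (p = 0 ∧ q = 1) ∨ (p = 1 ∧ q = 0) ∨ (p = 0 ∧ q = 2) ∨ (p = 2 ∧ q = 0) ∨
          (p = 1 ∧ q = 2) ∨ (p = 2 ∧ q = 1) := by omega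
      rcases hcases with ⟨rfl, rfl⟩ | ⟨rfl, rfl⟩ | ⟨rfl, rfl⟩ | ⟨rfl, rfl⟩ | ⟨rfl, rfl⟩ |
        ⟨rfl, rfl⟩
      · simp at w0 w1 w2
        obtain rfl : x0 = y0 + 1 := by omega
        obtain rfl : y1 = x1 + 1 := by omega
        obtain rfl : y2 = x2 := by omega
        obtain ⟨u1, u2⟩ := D.c01 y0 x1 y2 (by omega) h1 h2
        rw [u1, u2]
        exact ⟨rfl, fun _ => ⟨by omega, by omega⟩⟩
      · simp at w0 w1 w2
        obtain rfl : y0 = x0 + 1 := by omega
        obtain rfl : x1 = y1 + 1 := by omega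
        obtain rfl : y2 = x2 := by omega
        obtain ⟨u1, u2⟩ := D.c01 x0 y1 y2 (by omega) h2 h1
        rw [u1, u2]
        exact ⟨rfl, fun _ => ⟨by omega, by omega⟩⟩
      · simp at w0 w1 w2
        obtain rfl : x0 = y0 + 1 := by omega
        obtain rfl : y2 = x2 + 1 := by omega
        obtain rfl : y1 = x1 := by omega
        obtain ⟨u1, u2⟩ := D.c02 y0 y1 x2 (by omega) h1 h2
        rw [u1, u2]
        exact ⟨rfl, fun _ => ⟨by omega, by omega⟩⟩
      · simp at w0 w1 w2
        obtain rfl : y0 = x0 + 1 := by omega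
        obtain rfl : x2 = y2 + 1 := by omega
        obtain rfl : y1 = x1 := by omega
        obtain ⟨u1, u2⟩ := D.c02 x0 y1 y2 (by omega) h2 h1
        rw [u1, u2]
        exact ⟨rfl, fun _ => ⟨by omega, by omega⟩⟩
      · simp at w0 w1 w2
        obtain rfl : x1 = y1 + 1 := by omega
        obtain rfl : y2 = x2 + 1 := by omega
        obtain rfl : y0 = x0 := by omega
        obtain ⟨u1, u2⟩ := D.c12 y0 y1 x2 (by omega) h1 h2
        rw [u1, u2]
        exact ⟨rfl, fun _ => ⟨by omega, by omega⟩⟩
      · simp at w0 w1 w2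
        obtain rfl : y1 = x1 + 1 := by omega
        obtain rfl : x2 = y2 + 1 := by omega
        obtain rfl : y0 = x0 := by omega
        obtain ⟨u1, u2⟩ := D.c12 y0 x1 y2 (by omega) h2 h1
        rw [u1, u2]
        exact ⟨rfl, fun _ => ⟨by omega, by omega⟩⟩
  have hL : ∀ i, D.lam (win k c 0 i) (win k c 1 i) (win k c 2 i) =
      D.lam (win k c 0 0) (win k c 1 0) (win k c 2 0) := by
    intro i
    induction i with
    | zero => rfl
    | succ i ih => rw [(step i).1, ih]
  obtain ⟨t, ht⟩ : ∃ t, D.lam (win k c 0 0) (win k c 1 0) (win k c 2 0) = t := ⟨_, rfl⟩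
  have hk1 : ∀ i, (c (i + k) = t ↔ c i = t) := by
    intro i
    by_cases h : c i = c (i + k)
    · rw [h]
    · have h2 := (step i).2 h
      rw [hL i, ht] at h2
      exact ⟨fun h3 => absurd h3 h2.2, fun h3 => absurd h3 h2.1⟩
  have hk2 : ∀ m i, (c (i + k * m) = t ↔ c i = t) := by
    intro m
    induction m with
    | zero => intro i; simp
    | succ m ih =>
      intro i
      rw [show i + k * (m + 1) = (i + k * m) + k by ring, hk1, ih]
  have hl2 : ∀ m i, c (i + ℓ * m) = c i := by
    intro m
    induction m with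
    | zero => intro i; simp
    | succ m ih =>
      intro i
      rw [show i + ℓ * (m + 1) = (i + ℓ * m) + ℓ by ring, hper, ih]
  obtain ⟨m, _, hm⟩ := Nat.exists_mul_mod_eq_gcd (n := k) (k := ℓ) (by rw [hg]; exact hgl)
  rw [hg] at hm
  have hgp : ∀ i, (c (i + g) = t ↔ c i = t) := by
    intro i
    rw [← hl2 (k * m / ℓ) (i + g), ← hk2 m i]
    have h4 : g + ℓ * (k * m / ℓ) = k * m := by
      rw [← hm]; exact Nat.mod_add_div _ _
    rw [add_assoc, h4]
  have hdvd : d ∣ win k c t 0 := by
    unfold win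
    rw [hkg, sum_periodic (fun j => if c (0 + j) = t then 1 else 0) g]
    · exact dvd_mul_right _ _
    · intro i
      simp only [Nat.zero_add]
      by_cases h : c i = t
      · rw [if_pos h, if_pos ((hgp i).2 h)]
      · rw [if_neg h, if_neg (fun h2 => h ((hgp i).1 h2))]
  have hs := win_sum k c hc 0
  have h3 := D.le2 _ _ _ hs (hT 0)
  rw [ht] at h3
  interval_cases t
  · exact D.nd0 _ _ _ hs (hT 0) ht hdvd
  · exact D.nd1 _ _ _ hs (hT 0) ht hdvd
  · exact D.nd2 _ _ _ hs (hT 0) ht hdvd

/-- The number of vertices of `e` which are congruent to `a` modulo `3`. -/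
def cnt {n : ℕ} (a : ℕ) (e : Finset (Fin n)) : ℕ := (e.filter fun v => v.val % 3 = a).card

theorem cnt_sum {n : ℕ} (e : Finset (Fin n)) : cnt 0 e + cnt 1 e + cnt 2 e = e.card := by
  unfold cnt
  rw [Finset.card_filter, Finset.card_filter, Finset.card_filter, ← Finset.sum_add_distrib,
    ← Finset.sum_add_distrib, Finset.card_eq_sum_ones]
  refine Finset.sum_congr rfl fun v _ => ?_
  have : v.val % 3 < 3 := Nat.mod_lt _ (by norm_num)
  split_ifs <;> omega

theorem cnt_insert {n : ℕ} (a : ℕ) (e : Finset (Fin n)) (v : Fin n) (hv : v ∉ e) :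
    cnt a (insert v e) = cnt a e + if v.val % 3 = a then 1 else 0 := by
  unfold cnt
  rw [Finset.filter_insert]
  split_ifs with h
  · rw [Finset.card_insert_of_notMem]
    simp [hv]
  · simp

/-- The `k`-graph of a design: the `k`-sets whose residue counts form a chosen point. -/
noncomputable def graph {k d : ℕ} (D : Design k d) (n : ℕ) : Finset (Finset (Fin n)) := by
  classical
  exact (Finset.powersetCard k Finset.univ).filter fun e => D.T (cnt 0 e) (cnt 1 e) (cnt 2 e)

theorem mem_graph {k d : ℕ} {D : Design k d} {n : ℕ} {e : Finset (Fin n)} :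
    e ∈ graph D n ↔ e.card = k ∧ D.T (cnt 0 e) (cnt 1 e) (cnt 2 e) := by
  classical
  unfold graph
  simp [Finset.mem_filter, Finset.mem_powersetCard]

theorem class_card (n a : ℕ) (ha : a < 3) :
    n ≤ 3 * ((Finset.univ : Finset (Fin n)).filter fun v => v.val % 3 = a).card + 2 := by
  rw [Finset.card_filter, Fin.sum_univ_eq_sum_range (fun i => if i % 3 = a then 1 else 0) n]
  have h : ∀ n, ∑ i ∈ Finset.range n, (if i % 3 = a then 1 else 0) = (n + 2 - a) / 3 := by
    intro n
    induction n with
    | zero => simp; omega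
    | succ n ih =>
      rw [Finset.sum_range_succ, ih]
      split_ifs <;> omega
  rw [h]
  omega

theorem codeg {k d : ℕ} (D : Design k d) (hk : 1 ≤ k) (n : ℕ) (S : Finset (Fin n))
    (hS : S.card = k - 1) : n ≤ 3 * (((graph D n).filter fun e => S ⊆ e).card + k) := by
  classical
  have hsum := cnt_sum S
  have key : ∃ a, a < 3 ∧ ∀ v, v ∉ S → v.val % 3 = a → insert v S ∈ graph D n := by
    rcases D.cov (cnt 0 S) (cnt 1 S) (cnt 2 S) (by omega) with h | h | h
    · refine ⟨0, by norm_num, fun v hv hva => mem_graph.2 ⟨?_, ?_⟩⟩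
      · rw [Finset.card_insert_of_notMem hv]; omega
      · rw [cnt_insert _ _ _ hv, cnt_insert _ _ _ hv, cnt_insert _ _ _ hv]
        simpa [hva] using h
    · refine ⟨1, by norm_num, fun v hv hva => mem_graph.2 ⟨?_, ?_⟩⟩
      · rw [Finset.card_insert_of_notMem hv]; omega
      · rw [cnt_insert _ _ _ hv, cnt_insert _ _ _ hv, cnt_insert _ _ _ hv]
        simpa [hva] using h
    · refine ⟨2, by norm_num, fun v hv hva => mem_graph.2 ⟨?_, ?_⟩⟩
      · rw [Finset.card_insert_of_notMem hv]; omega
      · rw [cnt_insert _ _ _ hv, cnt_insert _ _ _ hv, cnt_insert _ _ _ hv]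
        simpa [hva] using h
  obtain ⟨a, ha, hmem⟩ := key
  have h1 : (((Finset.univ.filter fun v : Fin n => v.val % 3 = a) \ S).image
      fun v => insert v S) ⊆ (graph D n).filter fun e => S ⊆ e := by
    intro e he
    obtain ⟨v, hv, rfl⟩ := Finset.mem_image.1 he
    rw [Finset.mem_sdiff, Finset.mem_filter] at hv
    exact Finset.mem_filter.2 ⟨hmem v hv.2 hv.1.2, Finset.subset_insert _ _⟩
  have h2 : (((Finset.univ.filter fun v : Fin n => v.val % 3 = a) \ S).image
      fun v => insert v S).card = ((Finset.univ.filter fun v : Fin n => v.val % 3 = a) \ S).card := by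
    refine Finset.card_image_of_injOn ?_
    intro v hv w hw hvw
    have hv' : v ∉ S := (Finset.mem_sdiff.1 (Finset.mem_coe.1 hv)).2
    have hvw' : insert v S = insert w S := hvw
    have hv2 : v ∈ insert w S := hvw' ▸ Finset.mem_insert_self v S
    rcases Finset.mem_insert.1 hv2 with h | h
    · exact h
    · exact absurd h hv'
  have h3 := Finset.card_le_card h1
  have h4 := Finset.le_card_sdiff S (Finset.univ.filter fun v : Fin n => v.val % 3 = a)
  have h5 := class_card n a ha
  omega

theorem no_cycle {k d g ℓ : ℕ} (D : Design k d) (hkg : k = g * d) (hg : Nat.gcd k ℓ = g)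
    (hgl : g < ℓ) (hkl : k ≤ ℓ) (n : ℕ) : ¬ HasTightCycle k ℓ (graph D n) := by
  classical
  rintro ⟨u, hu, hw⟩
  refine no_word D hkg hg hgl (fun m => (u (m : ZMod ℓ)).val % 3)
    (fun m => Nat.mod_lt _ (by norm_num)) ?_ ?_
  · intro m
    simp
  · intro i
    have h := (mem_graph.1 (hw (i : ZMod ℓ))).2
    have e : ∀ a, cnt a ((Finset.range k).image fun j : ℕ => u ((i : ZMod ℓ) + (j : ZMod ℓ))) =
        win k (fun m => (u (m : ZMod ℓ)).val % 3) a i := by
      intro a
      unfold cnt win
      rw [Finset.card_filter, Finset.sum_image]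
      · refine Finset.sum_congr rfl fun j _ => ?_
        simp
      · intro j1 hj1 j2 hj2 h12
        have h3 := add_left_cancel (hu h12)
        have h4 := (ZMod.natCast_eq_natCast_iff' j1 j2 ℓ).1 h3
        have l1 := Finset.mem_range.1 (Finset.mem_coe.1 hj1)
        have l2 := Finset.mem_range.1 (Finset.mem_coe.1 hj2)
        rwa [Nat.mod_eq_of_lt (by omega), Nat.mod_eq_of_lt (by omega)] at h4
    rw [e, e, e] at h
    exact h

/-- **A lower bound for the codegree Turán number of tight cycles.**  Let `k ≥ 3` and `ℓ > k`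
with `k ∤ ℓ`, `k / gcd k ℓ` odd and `gcd k ℓ ≤ 3`.  Then for each `n` there is a `k`-graph `G` on
`n` vertices in which every `(k - 1)`-set lies in at least `n / 3 - k` edges and which does not
contain the tight cycle on `ℓ` vertices. -/
theorem result : ∀ k ℓ : ℕ, 3 ≤ k → k < ℓ → ¬ k ∣ ℓ → Odd (k / Nat.gcd k ℓ) →
    Nat.gcd k ℓ ≤ 3 → ∀ n : ℕ, ∃ G : Finset (Finset (Fin n)), (∀ e ∈ G, e.card = k) ∧
      (∀ S : Finset (Fin n), S.card = k - 1 →
        n ≤ 3 * ((G.filter fun e => S ⊆ e).card + k)) ∧
      ¬ HasTightCycle k ℓ G := by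
  intro k ℓ hk hkl hndvd hodd hg3 n
  obtain ⟨g, hg⟩ : ∃ g, Nat.gcd k ℓ = g := ⟨_, rfl⟩
  obtain ⟨d, hd⟩ : ∃ d, k / Nat.gcd k ℓ = d := ⟨_, rfl⟩
  rw [hd] at hodd
  rw [hg] at hg3 hd
  have hgk : g ∣ k := hg ▸ Nat.gcd_dvd_left k ℓ
  have hgl : g ∣ ℓ := hg ▸ Nat.gcd_dvd_right k ℓ
  have hkg : k = g * d := by rw [← hd]; exact (Nat.mul_div_cancel' hgk).symm
  have hg1 : 1 ≤ g := by
    rcases Nat.eq_zero_or_pos g with h | h
    · rw [h] at hkg; omega
    · exact h
  have hd1 : d ≠ 1 := by
    rintro rfl
    rw [Nat.mul_one] at hkg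
    exact hndvd (hkg ▸ hgl)
  have main : ∀ D : Design k d, ∃ G : Finset (Finset (Fin n)), (∀ e ∈ G, e.card = k) ∧
      (∀ S : Finset (Fin n), S.card = k - 1 →
        n ≤ 3 * ((G.filter fun e => S ⊆ e).card + k)) ∧
      ¬ HasTightCycle k ℓ G := fun D =>
    ⟨graph D n, fun e he => (mem_graph.1 he).1, fun S hS => codeg D (by omega) n S hS,
      no_cycle D hkg hg (by omega) (by omega) n⟩
  by_cases h3 : 3 ∣ d
  · exact main (designZero k d h3)
  · obtain ⟨r, hr⟩ := hodd
    have hd4 : 4 ≤ d := by omega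
    interval_cases g
    · have hk1 : k = d := by omega
      subst hk1
      exact main (designOne k hd4 h3)
    · subst hkg
      exact main (designTwo d hd4 h3)
    · subst hkg
      exact main (designThree d hd4 h3)

end Pool.Agent.Results.MP_a572be_co.GcdAtMostThree
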